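import Mathlib
import Pool.Agent.H28.CZDS

set_option autoImplicit false

namespace Pool.Agent.Results.MP_2780b6_an.Standard

open Polynomial

/-- number of non-real zeros, with multiplicity -/
noncomputable def Zc (f : ℝ[X]) : ℕ :=
  ((f.map (algebraMap ℝ ℂ)).roots.filter fun z => z.im ≠ 0).card

/-- a simple set of real polynomials -/
def IsSimple (B : ℕ → ℝ[X]) : Prop := ∀ k, (B k).degree = k

/-- complex zero decreasing sequence for the simple set `B` -/
def IsCZDS (B : ℕ → ℝ[X]) (γ : ℕ → ℝ) : Prop :=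
  ∀ (n : ℕ) (a : ℕ → ℝ), Zc (∑ k ∈ Finset.range (n + 1), (γ k * a k) • B k) ≤
    Zc (∑ k ∈ Finset.range (n + 1), a k • B k)

theorem result : ∃ B : ℕ → ℝ[X], IsSimple B ∧ IsCZDS B fun k => Real.exp (-((k : ℝ) ^ 3)) := by
  refine ⟨fun k => X ^ k, fun k => degree_X_pow k, fun n a => ?_⟩
  refine Pool.Agent.H28.CZDS.czds (fun k => Real.exp (-((k : ℝ) ^ 3))) (fun _ => Real.exp_pos _)
    (Pool.Agent.H28.CZDS.exp_pow 3 le_rfl) _ _ fun k => ?_
  simp only [finset_sum_coeff, coeff_smul, coeff_X_pow, smul_eq_mul, mul_ite, mul_one, mul_zero,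
    Finset.sum_ite_eq]

end Pool.Agent.Results.MP_2780b6_an.Standard
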